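import Pool.Agent.H79.RD.Targets

set_option autoImplicit false

/-!
# MP_c62aed_lc, module AQ: the active set after one query
-/

namespace Pool.Agent.H81.RDH

open Pool.Agent.H79.RD Finset

theorem pf_AQ : T_AQ := by
  intro V _ N b g φ hinj Rv x
  by_cases h : ∃ i j, φ i j = x ∧ x ∉ Rv
  · obtain ⟨i, j, hij, hx⟩ := h
    have h1 : unr φ (insert x Rv) i = (unr φ Rv i).erase j := by
      ext j'
      simp only [unr, mem_filter, mem_univ, true_and, mem_insert, not_or, mem_erase]
      constructor
      · rintro ⟨p, q⟩
        exact ⟨fun e => p (e ▸ hij), q⟩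
      · rintro ⟨p, q⟩
        exact ⟨fun e => p (hinj _ _ _ _ (e.trans hij.symm)).2, q⟩
    have hj : j ∈ unr φ Rv i := by
      simp only [unr, mem_filter, mem_univ, true_and]
      rw [hij]
      exact hx
    have h2 : (unr φ (insert x Rv) i).card + 1 = (unr φ Rv i).card := by
      rw [h1, card_erase_add_one hj]
    have h3 : ∀ i', i' ≠ i → unr φ (insert x Rv) i' = unr φ Rv i' := by
      intro i' hi'
      ext j'
      simp only [unr, mem_filter, mem_univ, true_and, mem_insert, not_or]
      exact ⟨fun e => e.2,
        fun e => ⟨fun e' => hi' (hinj _ _ _ _ (e'.trans hij.symm)).1, e⟩⟩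
    by_cases hc : (unr φ Rv i).card = g
    · right
      refine ⟨i, ?_, ?_, hc⟩
      · simp only [Act, mem_filter, mem_univ, true_and]
        omega
      · ext i'
        rw [mem_insert]
        simp only [Act, mem_filter, mem_univ, true_and]
        by_cases e : i' = i
        · subst e
          exact ⟨fun _ => Or.inl rfl, fun _ => by omega⟩
        · rw [h3 i' e]
          exact ⟨fun e' => Or.inr e', fun e' => e'.resolve_left e⟩
    · left
      ext i'
      simp only [Act, mem_filter, mem_univ, true_and]
      by_cases e : i' = i
      · subst e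
        omega
      · rw [h3 i' e]
  · left
    have h1 : ∀ i', unr φ (insert x Rv) i' = unr φ Rv i' := by
      intro i'
      ext j'
      simp only [unr, mem_filter, mem_univ, true_and, mem_insert, not_or]
      refine ⟨fun e => e.2, fun e => ⟨fun e' => h ⟨i', j', e', ?_⟩, e⟩⟩
      rw [← e']
      exact e
    ext i'
    simp only [Act, mem_filter, mem_univ, true_and, h1]

end Pool.Agent.H81.RDH
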